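import Pool.Agent.Work.MP_3b70de_al.F.Units
import Pool.Agent.Work.MP_3b70de_al.E.Top

/-! Unital maps into solution algebras of systems with a finite-dimensional solution. -/

namespace Pool.Agent.Work.MP_3b70de_al.F

open E

variable {V W : Type} [Fintype V] [Fintype W] {G : SimpleGraph V} {H : SimpleGraph W}
  {A : Type} [CStarAlgebra A] {p : V → W → A}

theorem rep_of_hom (hp : IsoRel G H p) {m n : ℕ} {M : Matrix (Fin m) (Fin n) (ZMod 2)}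
    {b : Fin m → ZMod 2} {C : Type} [CStarAlgebra C] {x : Fin n → C} (hx : IsSolAlg M b x)
    (h : FD M b) (φ : A →⋆ₐ[ℂ] C) : ∃ (k : ℕ) (q : V → W → Op (Fin (2 ^ k))), IsoRel G H q := by
  obtain ⟨d, y, hy⟩ := h
  obtain ⟨z, hz⟩ := exists_pow_two hy
  let T := Matrix.toEuclideanCLM (n := Fin (2 ^ d)) (𝕜 := ℂ)
  obtain ⟨ψ, -, -⟩ := hx.2 (Op (Fin (2 ^ d))) (fun i => T (z i))
    (hz.map (T : Matrix (Fin (2 ^ d)) (Fin (2 ^ d)) ℂ →* Op (Fin (2 ^ d))) (fun a => map_star T a)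
      (by simp))
  exact ⟨d, _, isoRel_map hp (ψ.comp φ)⟩

theorem fd_nontrivial {m n : ℕ} {M : Matrix (Fin m) (Fin n) (ZMod 2)}
    {b : Fin m → ZMod 2} {C : Type} [CStarAlgebra C] {x : Fin n → C} (hx : IsSolAlg M b x)
    (h : FD M b) : Nontrivial C := by
  obtain ⟨d, y, hy⟩ := h
  let T := Matrix.toEuclideanCLM (n := Fin (d + 1)) (𝕜 := ℂ)
  obtain ⟨ψ, -, -⟩ := hx.2 (Op (Fin (d + 1))) (fun i => T (y i))
    (hy.map (T : Matrix (Fin (d + 1)) (Fin (d + 1)) ℂ →* Op (Fin (d + 1))) (fun a => map_star T a)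
      (by simp))
  have : Nontrivial (Op (Fin (d + 1))) := T.injective.nontrivial
  exact ψ.toRingHom.domain_nontrivial

theorem embed_fd (hA : IsIsoAlg G H p) {m0 n0 : ℕ} {M0 : Matrix (Fin m0) (Fin n0) (ZMod 2)}
    {b0 : Fin m0 → ZMod 2} {C0 : Type} [CStarAlgebra C0] {x0 : Fin n0 → C0}
    (h0 : IsSolAlg M0 b0 x0) (hd : FD M0 b0) (φ0 : A →⋆ₐ[ℂ] C0) :
    ∃ (m n : ℕ) (M : Matrix (Fin m) (Fin n) (ZMod 2)) (b : Fin m → ZMod 2), FD M b ∧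
      ∀ (C : Type) [CStarAlgebra C] (x : Fin n → C), IsSolAlg M b x →
        ∃ φ : A →⋆ₐ[ℂ] C, Function.Injective φ := by
  have := fd_nontrivial h0 hd
  obtain ⟨m, n, M, hM⟩ := embed G H
  refine ⟨_, _, cM M M0, cb n n0 0 b0, FD.combine ⟨0, fun _ => 1, by simp [IsSol]⟩ hd,
    fun C _ z hz => ?_⟩
  obtain ⟨h1, h2, h3⟩ := combine_of hz.1
  obtain ⟨β, hβ, hu⟩ := h0.2 C _ h2
  refine (hM A p hA C _ h1 fun L _ _ _ y hy => ?_).2 _ (isoRel_map hA.1 (β.comp φ0))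
    fun g h i => ?_
  · obtain ⟨H0, _, _, _, π0, η, hη⟩ := exists_unit_rep C0
    obtain ⟨K, _, _, _, α, γ, J, c1, c2, c3⟩ := exists_tensor (H := L) hη
    obtain ⟨z', hz', e1, -⟩ := combine_to (isSol_hom hy α (Or.inl rfl))
      (isSol_hom (isSol_map h0.1 π0) γ (Or.inr c2)) fun i j => (c1 _ _).map (unitary _).subtype
    obtain ⟨π, hπ, -⟩ := hz.2 _ z' hz'
    exact ⟨K, inferInstance, inferInstance, inferInstance, π, J, fun i ξ => by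
      rw [hπ, e1]; exact c3 _ ξ⟩
  · let u : unitary C := solU h1 i
    have hs : star (u : C) = u := h1.1 i
    have hq : (u : C) * u = 1 := h1.2.1 i
    have e : ((Unitary.conjStarAlgAut ℂ C u : C →⋆ₐ[ℂ] C).comp β) = β := hu _ fun j => by
      change (u : C) * β (x0 j) * star (u : C) = _
      rw [hβ, hs, show (u : C) * z (ci2 n j) = z (ci2 n j) * u from (h3 i j).eq, mul_assoc, hq,
        mul_one]
    have e2 : (u : C) * β (φ0 (p g h)) * star (u : C) = β (φ0 (p g h)) :=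
      congrArg (fun f : C0 →⋆ₐ[ℂ] C => f (φ0 (p g h))) e
    change β (φ0 (p g h)) * u = u * β (φ0 (p g h))
    conv_lhs => rw [← e2]
    rw [hs, mul_assoc, hq, mul_one]

theorem embed_of_rep (hA : IsIsoAlg G H p) {k : ℕ} {q : V → W → Op (Fin (2 ^ k))}
    (hq : IsoRel G H q) :
    ∃ (m n : ℕ) (M : Matrix (Fin m) (Fin n) (ZMod 2)) (b : Fin m → ZMod 2) (C : Type)
      (_ : CStarAlgebra C) (x : Fin n → C), IsSolAlg M b x ∧ FD M b ∧
        ∃ φ : A →⋆ₐ[ℂ] C, Function.Injective φ := by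
  obtain ⟨m0, n0, M0, b0, h1, h2⟩ := exists_units k
  obtain ⟨C0, _, x0, h0⟩ := exists_solAlg M0 b0
  obtain ⟨e, he, -⟩ := h2 C0 x0 h0.1
  obtain ⟨ψ⟩ := he.hom
  obtain ⟨ρ, -, -⟩ := hA.2 _ q hq
  let T := Matrix.toEuclideanCLM (n := Fin (2 ^ k)) (𝕜 := ℂ)
  obtain ⟨m, n, M, b, hd, h⟩ := embed_fd hA h0 h1 (ψ.comp
    ((T.symm : Op (Fin (2 ^ k)) →⋆ₐ[ℂ] Matrix (Fin (2 ^ k)) (Fin (2 ^ k)) ℂ).comp ρ))
  obtain ⟨C, _, x, hx⟩ := exists_solAlg M b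
  exact ⟨m, n, M, b, C, inferInstance, x, hx, hd, h C x hx⟩

theorem classify (hA : IsIsoAlg G H p) : List.TFAE
    [∃ (m n : ℕ) (M : Matrix (Fin m) (Fin n) (ZMod 2)) (b : Fin m → ZMod 2) (C : Type)
      (_ : CStarAlgebra C) (x : Fin n → C), IsSolAlg M b x ∧ FD M b ∧
        ∃ φ : A →⋆ₐ[ℂ] C, Function.Injective φ,
    ∃ (m n : ℕ) (M : Matrix (Fin m) (Fin n) (ZMod 2)) (b : Fin m → ZMod 2) (C : Type)
      (_ : CStarAlgebra C) (x : Fin n → C), IsSolAlg M b x ∧ FD M b ∧ Nonempty (A →⋆ₐ[ℂ] C),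
    ∃ (k : ℕ) (q : V → W → Op (Fin (2 ^ k))), IsoRel G H q] := by
  tfae_have 1 → 2 := fun ⟨m, n, M, b, C, i, x, hx, hd, φ, _⟩ => ⟨m, n, M, b, C, i, x, hx, hd, ⟨φ⟩⟩
  tfae_have 2 → 3 := fun ⟨_, _, _, _, _, _, _, hx, hd, ⟨φ⟩⟩ => rep_of_hom hA.1 hx hd φ
  tfae_have 3 → 1 := fun ⟨_, _, hq⟩ => embed_of_rep hA hq
  tfae_finish

theorem six_not (k : ℕ) (q : Vx (Fin 23) 1 → Vx (Fin 23) 0 → Op (Fin (2 ^ k))) :
    ¬ IsoRel (gr vr vr_inj 1) (gr vr vr_inj 0) q := by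
  rintro ⟨p1, -, -, p4, p5⟩
  let T := Matrix.toEuclideanCLM (n := Fin (2 ^ k)) (𝕜 := ℂ)
  have := three_dvd (fun g h => T.symm (q g h)) 1 (2 ^ k) (fun g h => by rw [← map_mul, p1])
    (fun h => by rw [← map_sum, p4, map_one])
    (fun g g' h h' hn => by rw [← map_mul, p5 _ _ _ _ hn, map_zero]) (mul_one _)
    (fun g h => by rw [one_mul, mul_one]) (by simp)
  exact absurd (Nat.prime_three.dvd_of_dvd_pow this) (by norm_num)

theorem six_example : ∃ (V W : Type) (_ : Fintype V) (_ : Fintype W) (G : SimpleGraph V)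
    (H : SimpleGraph W) (A : Type) (_ : CStarAlgebra A) (p : V → W → A), IsIsoAlg G H p ∧
      (∃ q : V → W → Op (Fin 6), IsoRel G H q) ∧
      ∀ (k : ℕ) (q : V → W → Op (Fin (2 ^ k))), ¬ IsoRel G H q := by
  obtain ⟨A, _, p, hA⟩ := exists_isoAlg (gr vr vr_inj 1) (gr vr vr_inj 0)
  exact ⟨_, _, inferInstance, inferInstance, _, _, A, inferInstance, p, hA, ⟨_, six_rel⟩, six_not⟩

end Pool.Agent.Work.MP_3b70de_al.F
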