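import Pool.Agent.Work.MP_3b70de_al.Corner

/-! The odd part of the exterior algebra turns a solution of size `d + 1` into one of size `2 ^ d`. -/

namespace Pool.Agent.Work.MP_3b70de_al.F

open Matrix Set

variable {N : ℕ}

/-- the `r`-th compound matrix -/
noncomputable def cpd (N r : ℕ) : Matrix (Fin N) (Fin N) ℂ →*
    Matrix (powersetCard (Fin N) r) (powersetCard (Fin N) r) ℂ where
  toFun U := LinearMap.toMatrix ((Pi.basisFun ℂ (Fin N)).exteriorPower r)
    ((Pi.basisFun ℂ (Fin N)).exteriorPower r) (exteriorPower.map r (Matrix.toLin' U))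
  map_one' := by rw [Matrix.toLin'_one, exteriorPower.map_id, LinearMap.toMatrix_id]
  map_mul' U U' := by
    rw [Matrix.toLin'_mul, exteriorPower.map_comp,
      LinearMap.toMatrix_comp _ ((Pi.basisFun ℂ (Fin N)).exteriorPower r)]

theorem cpd_apply (r : ℕ) (U : Matrix (Fin N) (Fin N) ℂ) (s t : powersetCard (Fin N) r) :
    cpd N r U s t = (Matrix.of fun i j => U (powersetCard.ofFinEmbEquiv.symm s j)
      (powersetCard.ofFinEmbEquiv.symm t i)).det := by
  change LinearMap.toMatrix _ _ _ s t = _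
  rw [LinearMap.toMatrix_apply, exteriorPower.basis_repr_apply, exteriorPower.basis_apply,
    exteriorPower.ιMulti_family, exteriorPower.map_apply_ιMulti,
    exteriorPower.ιMultiDual_apply_ιMulti]
  congr 1
  ext i j
  simp

theorem cpd_star (r : ℕ) (U : Matrix (Fin N) (Fin N) ℂ) :
    cpd N r (star U) = star (cpd N r U) := by
  ext s t
  rw [star_apply, cpd_apply, cpd_apply, ← det_conjTranspose]
  congr 1

theorem cpd_neg_one {r : ℕ} (hr : Odd r) : cpd N r (-1) = -1 := by
  rw [← map_one (cpd N r)]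
  ext s t
  rw [Matrix.neg_apply, cpd_apply, cpd_apply]
  have := det_neg (Matrix.of fun i j => (1 : Matrix (Fin N) (Fin N) ℂ)
    (powersetCard.ofFinEmbEquiv.symm s j) (powersetCard.ofFinEmbEquiv.symm t i))
  rw [Fintype.card_fin, hr.neg_one_pow, neg_one_mul] at this
  rw [← this]
  congr 1

/-- subsets of odd size -/
abbrev OddI (N : ℕ) : Type := Σ r : {r : Fin (N + 1) // Odd r.val}, powersetCard (Fin N) r.1.val

/-- the action on the odd part of the exterior algebra -/
noncomputable def fock (N : ℕ) : Matrix (Fin N) (Fin N) ℂ →* Matrix (OddI N) (OddI N) ℂ where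
  toFun U := blockDiagonal' fun r => cpd N r.1.val U
  map_one' := by simp only [map_one]; exact blockDiagonal'_one
  map_mul' U U' := by simp only [map_mul]; exact blockDiagonal'_mul _ _

theorem fock_star (U : Matrix (Fin N) (Fin N) ℂ) : fock N (star U) = star (fock N U) := by
  refine Eq.trans ?_ (blockDiagonal'_conjTranspose
    fun r : {r : Fin (N + 1) // Odd r.val} => cpd N r.1.val U).symm
  exact congrArg blockDiagonal' (funext fun r => cpd_star _ U)

theorem fock_neg_one : fock N (-1) = -1 := by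
  rw [← blockDiagonal'_one, ← blockDiagonal'_neg]
  exact congrArg blockDiagonal' (funext fun r => cpd_neg_one r.2)

theorem card_oddI (d : ℕ) : Fintype.card (OddI (d + 1)) = 2 ^ d := by
  have h1 : Fintype.card (OddI (d + 1)) =
      ∑ r ∈ Finset.range (d + 1 + 1), if Odd r then (d + 1).choose r else 0 := by
    rw [Fintype.card_sigma, ← Fin.sum_univ_eq_sum_range
      (fun r => if Odd r then (d + 1).choose r else 0), ← Finset.sum_filter,
      Finset.sum_subtype (p := fun r : Fin (d + 1 + 1) => Odd r.val) _ (by simp)]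
    refine Finset.sum_congr rfl fun r _ => ?_
    rw [← Nat.card_eq_fintype_card, powersetCard.card, Nat.card_eq_fintype_card, Fintype.card_fin]
  have h2 := Int.alternating_sum_range_choose_of_ne (n := d + 1) (Nat.succ_ne_zero d)
  have h3 := Nat.sum_range_choose (d + 1)
  have h4 : (2 : ℤ) * (Fintype.card (OddI (d + 1)) : ℤ) = 2 * 2 ^ d := by
    have h5 : ((∑ r ∈ Finset.range (d + 1 + 1), (d + 1).choose r : ℕ) : ℤ) = 2 * 2 ^ d := by
      rw [h3]; push_cast; ring
    rw [← h5, ← sub_zero ((∑ r ∈ Finset.range (d + 1 + 1), (d + 1).choose r : ℕ) : ℤ), ← h2, h1]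
    push_cast
    rw [Finset.mul_sum, ← Finset.sum_sub_distrib]
    refine Finset.sum_congr rfl fun r _ => ?_
    rcases Nat.even_or_odd r with h | h
    · rw [if_neg (Nat.not_odd_iff_even.2 h), h.neg_one_pow]; ring
    · rw [if_pos h, h.neg_one_pow]; ring
  exact_mod_cast mul_left_cancel₀ two_ne_zero h4

theorem isSol_reindex {m n : ℕ} {M : Matrix (Fin m) (Fin n) (ZMod 2)} {b : Fin m → ZMod 2}
    {ι κ : Type} [Fintype ι] [DecidableEq ι] [Fintype κ] [DecidableEq κ] (e : ι ≃ κ)
    {y : Fin n → Matrix ι ι ℂ} (hy : IsSol M b y) : IsSol M b fun i => reindex e e (y i) :=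
  hy.map (reindexAlgEquiv ℂ ℂ e : Matrix ι ι ℂ →* Matrix κ κ ℂ)
    (fun a => (conjTranspose_reindex e e a).symm)
    ((map_neg (reindexAlgEquiv ℂ ℂ e) 1).trans (by rw [map_one]))

theorem exists_pow_two {m n : ℕ} {M : Matrix (Fin m) (Fin n) (ZMod 2)} {b : Fin m → ZMod 2}
    {d : ℕ} {y : Fin n → Matrix (Fin (d + 1)) (Fin (d + 1)) ℂ} (hy : IsSol M b y) :
    ∃ z : Fin n → Matrix (Fin (2 ^ d)) (Fin (2 ^ d)) ℂ, IsSol M b z :=
  ⟨_, isSol_reindex (Fintype.equivFinOfCardEq (card_oddI d))
    (hy.map (fock (d + 1)) fock_star fock_neg_one)⟩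

end Pool.Agent.Work.MP_3b70de_al.F
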