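import Pool.Agent.Work.MP_3b70de_al.F.Fock
import Pool.Agent.Work.MP_3b70de_al.E.Combine

/-! Systems with a finite-dimensional solution all of whose solutions carry `2 ^ k` matrix units. -/

namespace Pool.Agent.Work.MP_3b70de_al.F

open Matrix Kronecker E

/-- a unital system of matrix units -/
def MatU {ι C : Type} [Fintype ι] [DecidableEq ι] [Ring C] [StarRing C] (e : ι → ι → C) : Prop :=
  (∀ i j k l, e i j * e k l = if j = k then e i l else 0) ∧ (∀ i j, star (e i j) = e j i) ∧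
    ∑ i, e i i = 1

theorem MatU.hom {ι C : Type} [Fintype ι] [DecidableEq ι] [CStarAlgebra C] {e : ι → ι → C}
    (h : MatU e) : Nonempty (Matrix ι ι ℂ →⋆ₐ[ℂ] C) := by
  obtain ⟨h1, h2, h3⟩ := h
  let f : Matrix ι ι ℂ →ₗ[ℂ] C :=
    { toFun := fun a => ∑ i, ∑ j, a i j • e i j
      map_add' := fun a a' => by simp [add_smul, Finset.sum_add_distrib]
      map_smul' := fun c a => by simp [Finset.smul_sum, mul_smul] }
  have hf : ∀ a, f a = ∑ i, ∑ j, a i j • e i j := fun _ => rfl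
  refine ⟨⟨AlgHom.ofLinearMap f ?_ fun a a' => ?_, fun a => ?_⟩⟩
  · rw [hf, ← h3]
    simp [one_apply, ite_smul]
  · rw [hf, hf, hf, Finset.sum_mul]
    refine Finset.sum_congr rfl fun i _ => ?_
    simp only [mul_apply, Finset.sum_smul, Finset.sum_mul, Finset.mul_sum, smul_mul_smul_comm, h1,
      smul_ite, smul_zero]
    rw [Finset.sum_comm]
    refine Finset.sum_congr rfl fun j _ => ?_
    rw [Finset.sum_comm]
    simp
  · change f (star a) = star (f a)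
    rw [hf, hf, Finset.sum_comm]
    simp [star_sum, star_apply, h2]

theorem MatU.prod {ι κ C : Type} [Fintype ι] [DecidableEq ι] [Fintype κ] [DecidableEq κ] [Ring C]
    [StarRing C] {e : ι → ι → C} {f : κ → κ → C} (he : MatU e) (hf : MatU f)
    (hc : ∀ i j k l, Commute (e i j) (f k l)) :
    MatU fun a b : ι × κ => e a.1 b.1 * f a.2 b.2 := by
  refine ⟨fun a b c d => ?_, fun a b => ?_, ?_⟩ <;> beta_reduce
  · rw [(hc _ _ _ _).symm.mul_mul_mul_comm, he.1, hf.1]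
    by_cases h1 : b.1 = c.1 <;> by_cases h2 : b.2 = c.2 <;> simp [h1, h2, Prod.ext_iff]
  · rw [star_mul, he.2.1, hf.2.1, (hc _ _ _ _).eq]
  · have := Finset.sum_mul_sum Finset.univ Finset.univ (fun i => e i i) fun k => f k k
    rw [he.2.2, hf.2.2, mul_one] at this
    rw [Fintype.sum_prod_type, this]

theorem MatU.equiv {ι κ C : Type} [Fintype ι] [DecidableEq ι] [Fintype κ] [DecidableEq κ]
    [Ring C] [StarRing C] {e : ι → ι → C} (he : MatU e) (σ : κ ≃ ι) :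
    MatU fun a b => e (σ a) (σ b) :=
  ⟨fun a b c d => by rw [he.1]; simp, fun a b => he.2.1 _ _, by
    rw [← he.2.2]; exact σ.sum_comp fun i => e i i⟩

/-- the magic square -/
def msM : Matrix (Fin 6) (Fin 9) (ZMod 2) :=
  !![1, 1, 1, 0, 0, 0, 0, 0, 0; 0, 0, 0, 1, 1, 1, 0, 0, 0; 0, 0, 0, 0, 0, 0, 1, 1, 1;
    1, 0, 0, 1, 0, 0, 1, 0, 0; 0, 1, 0, 0, 1, 0, 0, 1, 0; 0, 0, 1, 0, 0, 1, 0, 0, 1]

def msb : Fin 6 → ZMod 2 := ![0, 0, 0, 0, 0, 1]

def msy : Fin 9 → Matrix (Fin 4) (Fin 4) ℤ :=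
  ![!![0, 0, 1, 0; 0, 0, 0, 1; 1, 0, 0, 0; 0, 1, 0, 0],
    !![0, 1, 0, 0; 1, 0, 0, 0; 0, 0, 0, 1; 0, 0, 1, 0],
    !![0, 0, 0, 1; 0, 0, 1, 0; 0, 1, 0, 0; 1, 0, 0, 0],
    !![1, 0, 0, 0; 0, -1, 0, 0; 0, 0, 1, 0; 0, 0, 0, -1],
    !![1, 0, 0, 0; 0, 1, 0, 0; 0, 0, -1, 0; 0, 0, 0, -1],
    !![1, 0, 0, 0; 0, -1, 0, 0; 0, 0, -1, 0; 0, 0, 0, 1],
    !![0, 0, 1, 0; 0, 0, 0, -1; 1, 0, 0, 0; 0, -1, 0, 0],
    !![0, 1, 0, 0; 1, 0, 0, 0; 0, 0, 0, -1; 0, 0, -1, 0],
    !![0, 0, 0, -1; 0, 0, 1, 0; 0, 1, 0, 0; -1, 0, 0, 0]]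

theorem msy_comm : ∀ k i j, (decide (msM k i = 1) && decide (msM k j = 1)) = true →
    decide (msy i * msy j = msy j * msy i) = true := by
  decide +kernel

theorem msy_sol : IsSol msM msb msy :=
  ⟨by decide +kernel, by decide +kernel, fun k i j hi hj =>
    of_decide_eq_true (msy_comm k i j (by rw [hi, hj]; rfl)), by decide +kernel⟩

theorem ms_fd : ∃ y : Fin 9 → Matrix (Fin 4) (Fin 4) ℂ, IsSol msM msb y :=
  ⟨_, msy_sol.map (RingHom.mapMatrix (m := Fin 4) (Int.castRingHom ℂ)).toMonoidHom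
    (fun a => by ext i j; simp [star_apply])
    ((map_neg (RingHom.mapMatrix (m := Fin 4) (Int.castRingHom ℂ)) 1).trans (by rw [map_one]))⟩

theorem ms_anti {C : Type} [Ring C] [StarRing C] {x : Fin 9 → C} (hx : IsSol msM msb x) :
    x 0 * x 4 = -(x 4 * x 0) := by
  obtain ⟨-, h2, h3, h4⟩ := hx
  have r0 : x 0 * (x 1 * x 2) = 1 := by simpa [msM, msb, List.ofFn_succ, ZMod.val_one] using h4 0
  have r1 : x 3 * (x 4 * x 5) = 1 := by simpa [msM, msb, List.ofFn_succ, ZMod.val_one] using h4 1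
  have r2 : x 6 * (x 7 * x 8) = 1 := by simpa [msM, msb, List.ofFn_succ, ZMod.val_one] using h4 2
  have r3 : x 0 * (x 3 * x 6) = 1 := by simpa [msM, msb, List.ofFn_succ, ZMod.val_one] using h4 3
  have r4 : x 1 * (x 4 * x 7) = 1 := by simpa [msM, msb, List.ofFn_succ, ZMod.val_one] using h4 4
  have r5 : x 2 * (x 5 * x 8) = -1 := by simpa [msM, msb, List.ofFn_succ, ZMod.val_one] using h4 5
  have t : ∀ {a b c : Fin 9}, x a * (x b * x c) = 1 → x a * x b = x c := fun {a b c} h => by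
    rw [← mul_one (x a * x b), ← h2 c, ← mul_assoc, mul_assoc (x a), h, one_mul]
  have e2 : x 0 * x 1 = x 2 := t r0
  have e5 : x 4 * x 3 = x 5 := by rw [← t r1]; exact h3 1 4 3 rfl rfl
  have e6 : x 3 * x 0 = x 6 := by rw [← t r3]; exact h3 3 3 0 rfl rfl
  have e7 : x 1 * x 4 = x 7 := t r4
  have e8 : x 6 * x 7 = x 8 := t r2
  have c : x 1 * x 4 = x 4 * x 1 := h3 4 1 4 rfl rfl
  have c' : x 0 * x 1 = x 1 * x 0 := h3 0 0 1 rfl rfl
  rw [← e8, ← e7, ← e6, ← e5, ← e2] at r5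
  have k : x 0 * x 4 * (x 0 * x 4) = -1 :=
    calc x 0 * x 4 * (x 0 * x 4) = x 0 * x 4 * (x 1 * x 1) * x 0 * x 4 := by
          rw [h2]; simp only [mul_assoc, one_mul]
      _ = x 0 * (x 4 * x 1) * (x 3 * x 3) * (x 1 * x 0) * x 4 := by
          rw [h2 3]; simp only [mul_assoc, one_mul]
      _ = _ := by rw [← c, ← c', ← r5]; simp only [mul_assoc]
  calc x 0 * x 4 = x 0 * x 4 * (x 0 * (x 4 * x 4) * x 0) := by rw [h2, mul_one, h2, mul_one]
    _ = x 0 * x 4 * (x 0 * x 4) * (x 4 * x 0) := by simp only [mul_assoc]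
    _ = _ := by rw [k, neg_one_mul]

/-- matrix units from two anticommuting symmetries -/
noncomputable def pu {C : Type} [Ring C] [Algebra ℂ C] (X Z : C) (i j : Fin 2) : C :=
  X ^ i.val * ((2⁻¹ : ℂ) • (1 + Z)) * X ^ j.val

theorem pu_units {C : Type} [CStarAlgebra C] {X Z : C} (hX : star X = X) (hZ : star Z = Z)
    (hX2 : X * X = 1) (hZ2 : Z * Z = 1) (h : X * Z = -(Z * X)) : MatU (pu X Z) := by
  set p : C := (2⁻¹ : ℂ) • (1 + Z) with hp
  have p1 : p * p = p := by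
    rw [hp, smul_mul_smul_comm, mul_add, add_mul, add_mul, hZ2, one_mul, one_mul, mul_one]
    module
  have p2 : X * p * X = 1 - p := by
    rw [hp, mul_smul_comm, smul_mul_assoc, mul_add, add_mul, mul_one, hX2, h, neg_mul, mul_assoc,
      hX2, mul_one]
    module
  have p3 : p * (X * p) = 0 := by
    have : p * (X * p) = p * (X * p * X) * X := by
      rw [mul_assoc, mul_assoc (X * p), hX2, mul_one]
    rw [this, p2, mul_sub, mul_one, p1, sub_self, zero_mul]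
  have p4 : star p = p := by rw [hp, star_smul, star_add, star_one, hZ]; simp
  have q1 : ∀ c, p * (p * c) = p * c := fun c => by rw [← mul_assoc, p1]
  have q2 : ∀ c, X * (X * c) = c := fun c => by rw [← mul_assoc, hX2, one_mul]
  have q3 : ∀ c, p * (X * (p * c)) = 0 := fun c => by
    rw [← mul_assoc X, ← mul_assoc, p3, zero_mul]
  refine ⟨fun i j k l => ?_, fun i j => ?_, ?_⟩
  · simp only [pu, ← hp]
    fin_cases j <;> fin_cases k <;> simp [mul_assoc, q1, q2, q3]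
  · simp only [pu, ← hp, star_mul, star_pow, hX, p4, mul_assoc]
  · simp only [pu, ← hp, Fin.sum_univ_two]
    simp [p2]

/-- the system has a solution in matrices of positive size -/
def FD {m n : ℕ} (M : Matrix (Fin m) (Fin n) (ZMod 2)) (b : Fin m → ZMod 2) : Prop :=
  ∃ (d : ℕ) (y : Fin n → Matrix (Fin (d + 1)) (Fin (d + 1)) ℂ), IsSol M b y

theorem FD.combine {m n m0 n0 : ℕ} {M : Matrix (Fin m) (Fin n) (ZMod 2)} {b : Fin m → ZMod 2}
    {M0 : Matrix (Fin m0) (Fin n0) (ZMod 2)} {b0 : Fin m0 → ZMod 2} (h : FD M b) (h0 : FD M0 b0) :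
    FD (cM M M0) (cb n n0 b b0) := by
  obtain ⟨d, y, hy⟩ := h
  obtain ⟨d0, y0, hy0⟩ := h0
  let f : Matrix (Fin (d + 1)) (Fin (d + 1)) ℂ →*
      Matrix (Fin (d + 1) × Fin (d0 + 1)) (Fin (d + 1) × Fin (d0 + 1)) ℂ :=
    { toFun := fun a => a ⊗ₖ 1
      map_one' := one_kronecker_one
      map_mul' := fun a a' => by rw [← mul_kronecker_mul, mul_one] }
  let g : Matrix (Fin (d0 + 1)) (Fin (d0 + 1)) ℂ →*
      Matrix (Fin (d + 1) × Fin (d0 + 1)) (Fin (d + 1) × Fin (d0 + 1)) ℂ :=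
    { toFun := fun a => 1 ⊗ₖ a
      map_one' := one_kronecker_one
      map_mul' := fun a a' => by rw [← mul_kronecker_mul, mul_one] }
  obtain ⟨z, hz, -⟩ := combine_to
    (hy.map f (fun a => by
      change _ ⊗ₖ _ = (_ ⊗ₖ _)ᴴ
      rw [conjTranspose_kronecker, conjTranspose_one, star_eq_conjTranspose]) (by
      change _ ⊗ₖ _ = _
      rw [← neg_one_smul ℂ, smul_kronecker, one_kronecker_one, neg_one_smul]))
    (hy0.map g (fun a => by
      change _ ⊗ₖ _ = (_ ⊗ₖ _)ᴴ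
      rw [conjTranspose_kronecker, conjTranspose_one, star_eq_conjTranspose]) (by
      change _ ⊗ₖ _ = _
      rw [← neg_one_smul ℂ, kronecker_smul, one_kronecker_one, neg_one_smul]))
    fun i j => by
      change (_ ⊗ₖ _) * (_ ⊗ₖ _) = (_ ⊗ₖ _) * (_ ⊗ₖ _)
      rw [← mul_kronecker_mul, ← mul_kronecker_mul, mul_one, one_mul, mul_one, one_mul]
  exact ⟨d * d0 + d + d0, _, isSol_reindex (Fintype.equivFinOfCardEq (by simp; ring)) hz⟩

theorem exists_units (k : ℕ) : ∃ (m n : ℕ) (M : Matrix (Fin m) (Fin n) (ZMod 2))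
    (b : Fin m → ZMod 2), FD M b ∧ ∀ (C : Type) [CStarAlgebra C] (x : Fin n → C), IsSol M b x →
      ∃ e : Fin (2 ^ k) → Fin (2 ^ k) → C, MatU e ∧
        ∀ c, (∀ i, Commute c (x i)) → ∀ i j, Commute c (e i j) := by
  induction k with
  | zero =>
    refine ⟨0, 0, 0, 0, ⟨0, 0, by simp [IsSol]⟩, fun C _ x _ => ⟨fun _ _ => 1, ⟨?_, ?_, ?_⟩, ?_⟩⟩
    · intro i j k l
      rw [if_pos (Subsingleton.elim (α := Fin 1) j k), mul_one]
    · simp
    · simp
    · simp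
  | succ k ih =>
    obtain ⟨m, n, M, b, h1, h2⟩ := ih
    obtain ⟨y, hy⟩ := ms_fd
    refine ⟨_, _, cM M msM, cb n 9 b msb, h1.combine ⟨3, y, hy⟩, fun C _ z hz => ?_⟩
    obtain ⟨a1, a2, a3⟩ := combine_of hz
    obtain ⟨e, he, hc⟩ := h2 C _ a1
    have hu := pu_units (a2.1 0) (a2.1 4) (a2.2.1 0) (a2.2.1 4) (ms_anti a2)
    have hp : ∀ c : C, (∀ j, Commute c (z (ci2 n j))) → ∀ i j,
        Commute c (pu (z (ci2 n (0 : Fin 9))) (z (ci2 n (4 : Fin 9))) i j) := fun c h i j =>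
      (((h 0).pow_right _).mul_right (((Commute.one_right c).add_right (h 4)).smul_right _)).mul_right
        ((h 0).pow_right _)
    refine ⟨_, (he.prod hu fun i j i' j' => hp _ (fun l => (hc _ (fun r => (a3 r l).symm) i j).symm)
      i' j').equiv (Fintype.equivOfCardEq (by simp [pow_succ])), fun c h i j => ?_⟩
    exact (hc c (fun _ => h _) _ _).mul_right (hp c (fun _ => h _) _ _)

end Pool.Agent.Work.MP_3b70de_al.F
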